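import Pool.Agent.N436.DF.Stm

/-! # Case B2: a unique real boundary edge -/

set_option autoImplicit false

namespace Pool.Agent.N342.DF

open Finset Pool.Agent.N436.DF

variable {V : Type} [DecidableEq V]

/-- the number of units between `x` and the outside -/
def ex (H : Hub V) (U : Finset V) (x : V) : ℤ := ∑ v ∈ U, (H.r x v + H.m x v)

/-- the number of pair units between `x` and the outside -/
def tx (H : Hub V) (U : Finset V) (x : V) : ℤ := ∑ v ∈ U, H.m x v

lemma ex_nonneg {P : Par} {H : Hub V} (ok : Ok P H) (U : Finset V) (x : V) : 0 ≤ ex H U x := by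
  unfold ex
  refine sum_nonneg fun v _ => ?_
  have h1 := ok.m_nn x v
  rcases ok.r01 x v with h | h <;> omega

lemma tx_nonneg {P : Par} {H : Hub V} (ok : Ok P H) (U : Finset V) (x : V) : 0 ≤ tx H U x :=
  sum_nonneg fun v _ => ok.m_nn x v

/-- the sum of `t1` outside is the sum of `ex` over the vertices coloured 1 -/
lemma sum_t1 (H : Hub V) (X U : Finset V) (f : V → Bool) :
    ∑ v ∈ U, t1 H X f v = ∑ x ∈ X with f x = true, ex H U x := by
  unfold t1 nr Pool.Agent.N436.DF.pr ex
  simp_rw [← sum_add_distrib]
  rw [sum_comm]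

theorem b2 (hkr : S_killRho) (hT : S_T) (hf1 : S_force1) (hf2 : S_force2) (hp3 : S_P3) : S_B2 := by
  intro V _ P H S X u w top huniq hrho
  have ok := top.mc.ok
  have hd := P.hd
  -- colourings have few units at the vertices coloured 1
  have hsub : ∀ f p, ColBy H X f p → ∀ A : Finset V, A ⊆ X → (∀ x ∈ A, f x = true) →
      ∑ x ∈ A, ex H (S \ X) x ≤ 2 := by
    intro f p hc A hA hf
    have h1 := hT V P H S X u w f p top hc
    have h2 : P.d * ∑ v ∈ S \ X, t1 H X f v ≤ ∑ v ∈ S \ X, sav P H X f v := by
      rw [mul_sum]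
      exact sum_le_sum fun v _ => (hkr V P H X f ok).2.2.2.1 v
    have h3 : -(2 * P.b) < rho P H S := top.mc.hyp S (Subset.refl S) ⟨u, top.sub top.hu⟩
    have h4 := top.le_a
    have h5 := top.rng.ha3
    have h6 : ∑ v ∈ S \ X, t1 H X f v ≤ 2 := by
      by_contra hlt
      push Not at hlt
      have h7 : P.d * 3 ≤ P.d * ∑ v ∈ S \ X, t1 H X f v :=
        mul_le_mul_of_nonneg_left (by omega) (by omega)
      omega
    rw [sum_t1] at h6
    refine le_trans ?_ h6
    refine sum_le_sum_of_subset_of_nonneg ?_ fun x _ _ => ex_nonneg ok _ x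
    intro x hx
    rw [mem_filter]
    exact ⟨hA hx, hf x hx⟩
  -- `ex` and `tx`
  have hex : ∀ x ∈ X, x ≠ u → ex H (S \ X) x = tx H (S \ X) x := by
    intro x hx hxu
    unfold ex tx
    refine sum_congr rfl fun v hv => ?_
    rcases ok.r01 x v with h | h
    · rw [h, zero_add]
    · exact absurd (huniq x hx v hv h).1 hxu
  have heu : ex H (S \ X) u = 1 + tx H (S \ X) u := by
    unfold ex tx
    rw [sum_add_distrib]
    congr 1
    rw [sum_eq_single_of_mem w top.hw, top.huw]
    intro v hv hvw
    rcases ok.r01 u v with h | h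
    · exact h
    · exact absurd (huniq u top.hu v hv h).2 hvw
  have htu := tx_nonneg ok (S \ X) u
  have hadj : Adj H u w := Or.inl top.huw
  -- boundary vertices
  have hB : ∀ x ∈ X, x ≠ u → 1 ≤ tx H (S \ X) x → ∃ f p, ColBy H X f p ∧ f u = true ∧ f x = true := by
    intro x hx hxu hx1
    have h1 : ∃ v ∈ S \ X, 1 ≤ H.m x v := by
      by_contra hne
      push Not at hne
      have h2 : tx H (S \ X) x ≤ ∑ v ∈ S \ X, (0 : ℤ) := by
        refine sum_le_sum fun v hv => ?_
        have := hne v hv
        omega
      rw [sum_const_zero] at h2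
      omega
    obtain ⟨v, hv, hm⟩ := h1
    exact hf2 V P H S X u w x v top hrho hx hv (Or.inr hm)
  obtain ⟨f2, p2, hc2, hf2u⟩ := hf1 V P H S X u w u w false top top.hu top.hw hadj
  -- the end of the proof
  have key : ∀ f1 p1, ColBy H X f1 p1 → f1 u = true → ∀ y, tx H (S \ X) y ≤ 1 →
      (∀ x ∈ X, f1 x ≠ f2 x → x ≠ y → tx H (S \ X) x ≤ 0) → False := by
    intro f1 p1 hc1 hf1u y hy hx
    refine hp3 V P H S X u w f1 f2 p1 p2 top huniq hc1 hc2 hf1u hf2u ?_
    calc ∑ x ∈ X with f1 x ≠ f2 x, ∑ v ∈ S \ X, H.m x v
        ≤ ∑ x ∈ X with f1 x ≠ f2 x, (if x = y then 1 else 0) := by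
          refine sum_le_sum fun x hxm => ?_
          rw [mem_filter] at hxm
          split_ifs with h
          · rw [h]
            exact hy
          · exact hx x hxm.1 hxm.2 h
      _ ≤ 1 := by
          rw [sum_ite_eq']
          split_ifs <;> omega
  by_cases hBe : ∃ x ∈ X, x ≠ u ∧ 1 ≤ tx H (S \ X) x
  · obtain ⟨x1, hx1, hx1u, hx1t⟩ := hBe
    -- all boundary vertices have one unit
    have hone : ∀ x ∈ X, x ≠ u → 1 ≤ tx H (S \ X) x → tx H (S \ X) u = 0 ∧ tx H (S \ X) x = 1 := by
      intro x hx hxu hxt
      obtain ⟨f, p, hc, h1, h2⟩ := hB x hx hxu hxt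
      have h3 := hsub f p hc {u, x} (by
        intro z hz
        rw [mem_insert, mem_singleton] at hz
        rcases hz with rfl | rfl
        · exact top.hu
        · exact hx) (by
        intro z hz
        rw [mem_insert, mem_singleton] at hz
        rcases hz with rfl | rfl
        · exact h1
        · exact h2)
      rw [sum_pair (Ne.symm hxu), heu, hex x hx hxu] at h3
      constructor <;> omega
    have htu0 := (hone x1 hx1 hx1u hx1t).1
    -- the colourings with `u` and `x` coloured 1
    have hoth : ∀ f p x, ColBy H X f p → f u = true → f x = true → x ∈ X → x ≠ u →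
        1 ≤ tx H (S \ X) x → ∀ x' ∈ X, x' ≠ u → x' ≠ x → 1 ≤ tx H (S \ X) x' → f x' = false := by
      intro f p x hc h1 h2 hx hxu hxt x' hx' hx'u hx'x hx't
      by_contra h3
      have h3' : f x' = true := by
        cases h : f x'
        · exact absurd h h3
        · rfl
      have h4 := hsub f p hc {u, x, x'} (by
        intro z hz
        rw [mem_insert, mem_insert, mem_singleton] at hz
        rcases hz with rfl | rfl | rfl
        · exact top.hu
        · exact hx
        · exact hx') (by
        intro z hz
        rw [mem_insert, mem_insert, mem_singleton] at hz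
        rcases hz with rfl | rfl | rfl
        · exact h1
        · exact h2
        · exact h3')
      rw [sum_insert (by
        rw [mem_insert, mem_singleton]
        rintro (h | h)
        · exact hxu h.symm
        · exact hx'u h.symm), sum_pair (Ne.symm hx'x), heu, hex x hx hxu, hex x' hx' hx'u] at h4
      omega
    by_cases hN : ∃ x ∈ X, x ≠ u ∧ 1 ≤ tx H (S \ X) x ∧ f2 x = true
    · obtain ⟨x0, hx0, hx0u, hx0t, hx0f⟩ := hN
      obtain ⟨f1, p1, hc1, hf1u, hf1x⟩ := hB x0 hx0 hx0u hx0t
      by_cases hN2 : ∃ y ∈ X, y ≠ u ∧ y ≠ x0 ∧ 1 ≤ tx H (S \ X) y ∧ f2 y = true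
      · obtain ⟨y, hy, hyu, hyx0, hyt, hyf⟩ := hN2
        refine key f1 p1 hc1 hf1u y (hone y hy hyu hyt).2.le ?_
        intro x hx hne hxy
        by_contra hlt
        push Not at hlt
        have hxt : 1 ≤ tx H (S \ X) x := by omega
        have hxu : x ≠ u := by
          rintro rfl
          omega
        have hxx0 : x ≠ x0 := by
          rintro rfl
          exact hne (by rw [hf1x, hx0f])
        have h1 := hoth f1 p1 x0 hc1 hf1u hf1x hx0 hx0u hx0t x hx hxu hxx0 hxt
        have h2 : f2 x = true := by
          cases h : f2 x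
          · exact absurd (by rw [h1, h]) hne
          · rfl
        have h4 := hsub f2 p2 hc2 {x0, y, x} (by
          intro z hz
          rw [mem_insert, mem_insert, mem_singleton] at hz
          rcases hz with rfl | rfl | rfl
          · exact hx0
          · exact hy
          · exact hx) (by
          intro z hz
          rw [mem_insert, mem_insert, mem_singleton] at hz
          rcases hz with rfl | rfl | rfl
          · exact hx0f
          · exact hyf
          · exact h2)
        rw [sum_insert (by
          rw [mem_insert, mem_singleton]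
          rintro (h | h)
          · exact hyx0 h.symm
          · exact hxx0 h.symm), sum_pair (Ne.symm hxy), hex x0 hx0 hx0u, hex y hy hyu,
          hex x hx hxu] at h4
        omega
      · refine key f1 p1 hc1 hf1u x0 (hone x0 hx0 hx0u hx0t).2.le ?_
        intro x hx hne hxx0
        by_contra hlt
        push Not at hlt
        have hxt : 1 ≤ tx H (S \ X) x := by omega
        have hxu : x ≠ u := by
          rintro rfl
          omega
        have h1 := hoth f1 p1 x0 hc1 hf1u hf1x hx0 hx0u hx0t x hx hxu hxx0 hxt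
        apply hN2
        refine ⟨x, hx, hxu, hxx0, hxt, ?_⟩
        cases h : f2 x
        · exact absurd (by rw [h1, h]) hne
        · rfl
    · obtain ⟨f1, p1, hc1, hf1u, hf1x⟩ := hB x1 hx1 hx1u hx1t
      refine key f1 p1 hc1 hf1u x1 (hone x1 hx1 hx1u hx1t).2.le ?_
      intro x hx hne hxx1
      by_contra hlt
      push Not at hlt
      have hxt : 1 ≤ tx H (S \ X) x := by omega
      have hxu : x ≠ u := by
        rintro rfl
        omega
      have h1 := hoth f1 p1 x1 hc1 hf1u hf1x hx1 hx1u hx1t x hx hxu hxx1 hxt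
      apply hN
      refine ⟨x, hx, hxu, hxt, ?_⟩
      cases h : f2 x
      · exact absurd (by rw [h1, h]) hne
      · rfl
  · push Not at hBe
    obtain ⟨f1, p1, hc1, hf1u⟩ := hf1 V P H S X u w u w true top top.hu top.hw hadj
    have h1 := hsub f1 p1 hc1 {u} (by
      intro z hz
      rw [mem_singleton] at hz
      rw [hz]
      exact top.hu) (by
      intro z hz
      rw [mem_singleton] at hz
      rw [hz]
      exact hf1u)
    rw [sum_singleton, heu] at h1
    refine key f1 p1 hc1 hf1u u (by omega) ?_
    intro x hx _ hxu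
    have := hBe x hx hxu
    omega

end Pool.Agent.N342.DF
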